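import Pool.Agent.H24.OPP.TTDefs

/-!
# OPP: the interface between the algebra block and the topological theorem

`TopData N` collects what the algebra block (sections 3 and 5 of `OPP_PLAN.md`) has to deliver:
a closed invariant set `Z`, the determinant function `D` (`det V(x)`), the transition function
`kf` (`k(x,x')`), and finite stage functions whose common near-zero set is close to `Z`.
`BridgeStmt` says that this is impossible (given `TTStmt`).
-/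

set_option autoImplicit false

open scoped Uniformity

namespace Pool.OPP

/-- What the algebra block has to deliver, for the closed set `Z` (`Z_0` of the plan). -/
structure TopData (N : ℕ → ℕ) where
  /-- the set `Z_0` -/
  Z : Set (XX N)
  /-- invariance under all the rotations -/
  Z_inv : ∀ j, ∀ x ∈ Z, tt j x ∈ Z
  /-- the function `det V(x)` -/
  D : XX N → ℂ
  norm_D : ∀ x ∈ Z, ‖D x‖ = 1
  D_zero : ∀ x ∈ Z, D (tt 0 x) = om * D x
  D_pos : ∀ j, j ≠ 0 → ∀ x ∈ Z, D (tt j x) = D x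
  /-- the function `k(x,x')` -/
  kf : XX N → XX N → ℂ
  norm_kf : ∀ x ∈ Z, ∀ y ∈ Z, ‖kf x y‖ = 1
  kf_inv : ∀ j, ∀ x ∈ Z, ∀ y ∈ Z, kf (tt j x) (tt j y) = kf x y
  /-- `det V(x') ~ det V(x) k(x,x')^3` for close points -/
  D_kf : ∀ ε : ℝ, 0 < ε → ∃ U ∈ 𝓤 (XX N), ∀ x ∈ Z, ∀ y ∈ Z, (x, y) ∈ U →
    ‖D y - D x * kf x y ^ 3‖ < ε
  /-- `k(x,x') k(x',x'') ~ k(x,x'')` for close points -/
  kf_kf : ∀ ε : ℝ, 0 < ε → ∃ U ∈ 𝓤 (XX N), ∀ x ∈ Z, ∀ y ∈ Z, ∀ z ∈ Z,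
    (x, y) ∈ U → (y, z) ∈ U → (x, z) ∈ U → ‖kf x y * kf y z - kf x z‖ < ε
  /-- finite stage functions of pure type, few of each type, whose common near-zero set is
  close to `Z` -/
  approx : ∀ V ∈ 𝓤 (XX N), ∃ (J : Finset ℕ) (ι : Type) (_ : Fintype ι) (ty : ι → ℕ)
    (g : ι → XX N → ℂ) (η : ℝ), 0 ∈ J ∧ (∀ i, ty i ∈ J ∧ ty i ≠ 0) ∧
    (∀ j, 2 * Fintype.card {i // ty i = j} + 1 ≤ N j) ∧ (∀ i, Continuous (g i)) ∧
    (∀ i, ∀ j ∈ J, ∀ x, g i (tt j x) = (if j = ty i then om else 1) * g i x) ∧ 0 < η ∧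
    ∀ x, (∀ i, ‖g i x‖ < η) → ∃ z ∈ Z, (x, z) ∈ V

/-- The bridge: the topological theorem excludes such data. -/
def BridgeStmt : Prop :=
  TTStmt → ∀ N : ℕ → ℕ, (∀ j, 1 ≤ N j) → 3 ≤ N 0 → TopData N → False

end Pool.OPP
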