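import Pool.Agent.H7.OPP.Stmts

/-!
# OPP, module TOP: the topological data of an anti-automorphism
-/

set_option autoImplicit false

open scoped Topology ComplexConjugate Uniformity

namespace Pool.OPP

noncomputable section

theorem TOP_norm_ph (z : ℂ) : ‖ph z‖ = 1 := by
  unfold ph
  split_ifs with h
  · exact norm_one
  · rw [norm_div, Complex.norm_real, norm_norm, div_self (norm_ne_zero_iff.mpr h)]

theorem TOP_ip (hA : SAct) (γ : ℕ → ZMod 3) (ξ ξ' : Fin (hh + 1) → II → ℂ) (v : Fin (hh + 1)) :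
    ip (av γ ξ v) (av γ ξ' v) = ip (ξ v) (ξ' v) := by
  obtain ⟨_, _, _, _, _, _, _, _, hn, _⟩ := hA
  unfold ip av
  apply Finset.sum_congr rfl
  intro i _
  have h1 := hn γ ((i, ∅) : JI)
  have h2 : chi γ (i, ∅) * conj (chi γ (i, ∅)) = 1 := by
    rw [Complex.mul_conj, Complex.normSq_eq_norm_sq, h1]
    norm_num
  rw [map_mul, Complex.conj_conj]
  linear_combination (conj (ξ v i) * ξ' v i) * h2

theorem TOP_om_val (a b : ZMod 3) : om ^ (a + b).val = om ^ a.val * om ^ b.val := by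
  rw [ZMod.val_add, ← pow_add]
  conv_rhs => rw [← Nat.div_add_mod (a.val + b.val) 3, pow_add, pow_mul, om_pow_three, one_pow,
    one_mul]

theorem sTop (h1 : SOrb) (h2 : SFrx) (h3 : SFrq) (h4 : SVun) (h5 : SVct) (h6 : SKco)
    (h7 : SZcp) (h8 : STyp) (h9 : SRr1) (h10 : SAct) (h11 : SUnc) : STop := by
  intro θ
  obtain ⟨_, _, _, hZinv, _⟩ := h9 θ
  have hact := h10
  obtain ⟨ha0, haadd, _, _, htt, _, _, _, _, hchi0, hchiadd, _⟩ := h10
  obtain ⟨hu1, hu2, _⟩ := h11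
  obtain ⟨r, hr⟩ := h1 ((Fin (hh + 1) → II → ℂ) × (Fin 3 → ℂ))
    (fun γ y => (av γ y.1, ac γ y.2))
    (by
      rintro ⟨ξ, c⟩
      refine Prod.ext ?_ ?_
      · funext v i
        simp [av, hchi0]
      · funext k
        simp [ac])
    (by
      rintro γ γ' ⟨ξ, c⟩
      refine Prod.ext ?_ ?_
      · funext v i
        simp only [av, hchiadd, map_mul]
        ring
      · funext k
        simp only [ac, Pi.add_apply, TOP_om_val]
        ring)
    (Zst θ) hZinv (fun x y => IsFrame θ x y.1 y.2)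
    (by
      rintro γ x hx ⟨ξ, c⟩ hf
      exact (h3 θ x hx γ ξ c hf).1)
    (by
      intro x hx
      obtain ⟨ξ, c, hf⟩ := h2 θ x hx
      exact ⟨(ξ, c), hf⟩)
  have hD : ∀ γ, ∀ x ∈ Zst θ, (VV θ (act γ x) (r (act γ x)).1 (r (act γ x)).2).det =
      om ^ (γ 0).val * (VV θ x (r x).1 (r x).2).det := by
    intro γ x hx
    rw [(hr x hx).2 γ]
    exact (h3 θ x hx γ _ _ (hr x hx).1).2
  have hone : (1 : ZMod 3).val = 1 := rfl
  refine ⟨{
    Z := Zst θ
    Z_inv := ?_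
    D := fun x => (VV θ x (r x).1 (r x).2).det
    norm_D := ?_
    D_zero := ?_
    D_pos := ?_
    kf := fun x y => kk (r x).1 (r y).1
    norm_kf := ?_
    kf_inv := ?_
    D_kf := ?_
    kf_kf := ?_
    approx := ?_ }⟩
  · intro j x hx
    rw [htt]
    exact hZinv _ x hx
  · intro x hx
    exact h4 θ x hx _ _ (hr x hx).1
  · intro x hx
    simp only [htt]
    rw [hD _ x hx, Pi.single_eq_same, hone, pow_one]
  · intro j hj x hx
    simp only [htt]
    rw [hD _ x hx, Pi.single_eq_of_ne (Ne.symm hj), ZMod.val_zero, pow_zero, one_mul]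
  · intro x _ y _
    unfold kk
    rw [norm_prod]
    apply Finset.prod_eq_one
    intro v _
    rw [norm_pow, TOP_norm_ph, one_pow]
  · intro j x hx y hy
    simp only [htt]
    rw [(hr x hx).2, (hr y hy).2]
    unfold kk
    apply Finset.prod_congr rfl
    intro v _
    rw [TOP_ip hact]
  · intro ε hε
    obtain ⟨n, δ, hδ, h⟩ := h5 θ ε hε
    refine ⟨_, hu1 n δ hδ, ?_⟩
    intro x hx y hy hxy
    exact h x hx y hy hxy _ _ _ _ (hr x hx).1 (hr y hy).1
  · intro ε hε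
    obtain ⟨n, δ, hδ, h⟩ := h6 θ ε hε
    refine ⟨_, hu1 n δ hδ, ?_⟩
    intro x hx y hy z hz hxy hyz hxz
    exact h x hx y hy z hz hxy hyz hxz _ _ _ _ _ _ (hr x hx).1 (hr y hy).1 (hr z hz).1
  · intro V hV
    obtain ⟨n, δ, hδ, hcl⟩ := hu2 V hV
    obtain ⟨ε, hε, hz⟩ := h7 θ n δ hδ
    obtain ⟨J, ι, hι, ty, g, η, h0, hty, hcard, hg, heq, hη, hnear⟩ := h8 θ ε hε
    refine ⟨J, ι, hι, ty, g, η, h0, hty, hcard, hg, heq, hη, ?_⟩
    intro x hx
    obtain ⟨z, hzZ, hc⟩ := hz x (hnear x hx)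
    exact ⟨z, hzZ, hcl _ _ hc⟩

end

end Pool.OPP
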