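import Pool.Agent.H92.OPP.BridgeDefs

/-!
# OPP: proof of the bridge
-/

set_option autoImplicit false

open scoped Uniformity

namespace Pool.OPP

namespace Br

/-! ### the character of `ZMod 3` -/

theorem om_ne_zero : om ≠ 0 := by
  intro h
  have := norm_om
  rw [h, norm_zero] at this
  exact zero_ne_one this

theorem om_prim : IsPrimitiveRoot om 3 := by
  have := Complex.isPrimitiveRoot_exp 3 (by norm_num)
  simpa [om] using this

/-- the character -/
noncomputable def ch (a : ZMod 3) : ℂ := om ^ a.val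

theorem om_pow_mod (n : ℕ) : om ^ n = om ^ (n % 3) := by
  conv_lhs => rw [← Nat.div_add_mod n 3, pow_add, pow_mul, om_pow_three, one_pow, one_mul]

theorem ch_add (a b : ZMod 3) : ch (a + b) = ch a * ch b := by
  unfold ch
  rw [ZMod.val_add, ← om_pow_mod, pow_add]

theorem ch_zero : ch 0 = 1 := by simp [ch]

theorem ch_one : ch 1 = om := by
  unfold ch
  rw [show (1 : ZMod 3).val = 1 from rfl, pow_one]

theorem ch_ne (a : ZMod 3) : ch a ≠ 0 := pow_ne_zero _ om_ne_zero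

theorem norm_ch (a : ZMod 3) : ‖ch a‖ = 1 := by
  unfold ch
  rw [norm_pow, norm_om, one_pow]

theorem ch_neg (a : ZMod 3) : ch (-a) = (ch a)⁻¹ := by
  have h : ch (-a) * ch a = 1 := by rw [← ch_add, neg_add_cancel, ch_zero]
  exact eq_inv_of_mul_eq_one_left h

theorem ch_inj {a b : ZMod 3} (h : ch a = ch b) : a = b := by
  unfold ch at h
  have h1 := om_prim.pow_inj (ZMod.val_lt a) (ZMod.val_lt b) h
  exact ZMod.val_injective 3 h1

theorem ch_natCast (n : ℕ) : ch (n : ZMod 3) = om ^ n := by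
  unfold ch
  rw [ZMod.val_natCast, ← om_pow_mod]

theorem ch_intCast (n : ℤ) : ch (n : ZMod 3) = om ^ n := by
  obtain ⟨m, rfl | rfl⟩ := n.eq_nat_or_neg
  · rw [Int.cast_natCast, ch_natCast, zpow_natCast]
  · rw [Int.cast_neg, Int.cast_natCast, ch_neg, ch_natCast, zpow_neg, zpow_natCast]

/-- two different cube roots of unity are far -/
theorem ch_far {a b : ZMod 3} (h : ‖ch a - ch b‖ < 1) : a = b := by
  have h3 : ch a - ch b = ch b * (ch (a - b) - 1) := by
    have : ch a = ch b * ch (a - b) := by rw [← ch_add]; congr 1; ring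
    rw [this]; ring
  rw [h3, norm_mul, norm_ch, one_mul] at h
  by_contra hab
  have hc : a - b ≠ 0 := sub_ne_zero.mpr hab
  set c := a - b with hcd
  have hc1 : ch c ≠ 1 := by
    intro h1
    apply hc
    apply ch_inj
    rw [h1, ch_zero]
  have hc3 : ch c ^ 3 = 1 := by
    unfold ch
    rw [← pow_mul, mul_comm, pow_mul, om_pow_three, one_pow]
  have h4 : (ch c - 1) * (ch c ^ 2 + ch c + 1) = 0 := by
    linear_combination hc3
  have h5 : ch c ^ 2 + ch c + 1 = 0 := by
    rcases mul_eq_zero.mp h4 with h | h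
    · exact absurd (sub_eq_zero.mp h) hc1
    · exact h
  -- (c - 1) (c + 2) = -3
  have h6 : (ch c - 1) * (ch c + 2) = -3 := by linear_combination h5
  have h7 : ‖ch c - 1‖ * ‖ch c + 2‖ = 3 := by
    rw [← norm_mul, h6]; norm_num
  have h8 : ‖ch c + 2‖ ≤ 3 := by
    calc ‖ch c + 2‖ ≤ ‖ch c‖ + ‖(2 : ℂ)‖ := norm_add_le _ _
      _ = 3 := by rw [norm_ch]; norm_num
  have h9 : 0 ≤ ‖ch c + 2‖ := norm_nonneg _
  nlinarith [norm_nonneg (ch c - 1)]

/-- rounding -/
noncomputable def rnd (z : ℂ) : ZMod 3 :=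
  open Classical in if h : ∃ a : ZMod 3, ‖z - ch a‖ < 1 / 10 then h.choose else 0

theorem rnd_spec (z : ℂ) (h : ‖z ^ 3 - 1‖ < 1 / 1000) : ‖z - ch (rnd z)‖ < 1 / 10 := by
  have hex : ∃ a : ZMod 3, ‖z - ch a‖ < 1 / 10 := by
    by_contra hno
    push Not at hno
    have h0 := hno 0
    have h1 := hno 1
    have h2 := hno (1 + 1)
    have hom : om ^ 2 + om + 1 = 0 := by
      have h4 : (om - 1) * (om ^ 2 + om + 1) = 0 := by
        linear_combination om_pow_three
      rcases mul_eq_zero.mp h4 with h | h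
      · exact absurd (sub_eq_zero.mp h) (om_prim.ne_one (by norm_num))
      · exact h
    have hz : z ^ 3 - 1 = (z - ch 0) * (z - ch 1) * (z - ch (1 + 1)) := by
      rw [ch_add, ch_one, ch_zero]
      have h3 := om_pow_three
      linear_combination (z ^ 2 - z * om) * hom + h3
    rw [hz, norm_mul, norm_mul] at h
    have h01 : (1 / 10 : ℝ) * (1 / 10) ≤ ‖z - ch 0‖ * ‖z - ch 1‖ :=
      mul_le_mul h0 h1 (by norm_num) (norm_nonneg _)
    have h012 : (1 / 10 : ℝ) * (1 / 10) * (1 / 10) ≤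
        ‖z - ch 0‖ * ‖z - ch 1‖ * ‖z - ch (1 + 1)‖ :=
      mul_le_mul h01 h2 (by norm_num) (by positivity)
    norm_num at h012
    linarith
  unfold rnd
  rw [dif_pos hex]
  exact hex.choose_spec

/-! ### labels and the action -/

theorem rot3 {n : ℕ} (v : CSph n) : rot (rot (rot v)) = v := by
  apply Subtype.ext
  simp only [coe_rot]
  rw [smul_smul, smul_smul]
  have : om * om * om = 1 := by rw [← om_pow_three]; ring
  rw [this, one_smul]

theorem coe_iter {n : ℕ} (m : ℕ) (v : CSph n) :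
    ((rot^[m] v : CSph n) : EuclideanSpace ℂ (Fin n)) = om ^ m • (v : EuclideanSpace ℂ (Fin n)) := by
  induction m with
  | zero => simp
  | succ m ih => rw [Function.iterate_succ_apply', coe_rot, ih, smul_smul, pow_succ']

/-- the action of `ZMod 3` on a sphere -/
noncomputable def ro {n : ℕ} (a : ZMod 3) (v : CSph n) : CSph n := rot^[a.val] v

theorem coe_ro {n : ℕ} (a : ZMod 3) (v : CSph n) :
    ((ro a v : CSph n) : EuclideanSpace ℂ (Fin n)) = ch a • (v : EuclideanSpace ℂ (Fin n)) :=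
  coe_iter _ _

theorem ro_add {n : ℕ} (a b : ZMod 3) (v : CSph n) : ro (a + b) v = ro a (ro b v) := by
  apply Subtype.ext
  rw [coe_ro, coe_ro, coe_ro, smul_smul, ch_add]

theorem ro_zero {n : ℕ} (v : CSph n) : ro 0 v = v := by
  apply Subtype.ext
  rw [coe_ro, ch_zero, one_smul]

theorem ro_one {n : ℕ} (v : CSph n) : ro 1 v = rot v := by
  apply Subtype.ext
  rw [coe_ro, ch_one, coe_rot]

theorem sph_ne_zero {n : ℕ} (v : CSph n) : (v : EuclideanSpace ℂ (Fin n)) ≠ 0 := by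
  intro h
  have := norm_eq_of_mem_sphere v
  rw [h, norm_zero] at this
  exact zero_ne_one this

theorem ro_inj {n : ℕ} {a b : ZMod 3} {v : CSph n} (h : ro a v = ro b v) : a = b := by
  have h1 := congrArg (fun w : CSph n => (w : EuclideanSpace ℂ (Fin n))) h
  simp only [coe_ro] at h1
  have h2 := smul_left_injective ℂ (sph_ne_zero v) h1
  exact ch_inj h2

theorem dist_ro {n : ℕ} (a : ZMod 3) (v w : CSph n) : dist (ro a v) (ro a w) = dist v w := by
  rw [Subtype.dist_eq, Subtype.dist_eq, coe_ro, coe_ro, dist_eq_norm, dist_eq_norm, ← smul_sub,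
    norm_smul, norm_ch, one_mul]

/-- orbits -/
def orb (n : ℕ) : Setoid (CSph n) where
  r v w := ∃ a : ZMod 3, w = ro a v
  iseqv :=
    { refl := fun v => ⟨0, (ro_zero v).symm⟩
      symm := by
        rintro v w ⟨a, rfl⟩
        exact ⟨-a, by rw [← ro_add, neg_add_cancel, ro_zero]⟩
      trans := by
        rintro v w u ⟨a, rfl⟩ ⟨b, rfl⟩
        exact ⟨b + a, by rw [ro_add]⟩ }

/-- a representative of the orbit -/
noncomputable def rep {n : ℕ} (v : CSph n) : CSph n := (Quotient.mk (orb n) v).out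

theorem rep_rel {n : ℕ} (v : CSph n) : ∃ a : ZMod 3, v = ro a (rep v) := by
  have h : (orb n).r (rep v) v := Quotient.exact (Quotient.out_eq (Quotient.mk (orb n) v))
  exact h

theorem rep_ro {n : ℕ} (a : ZMod 3) (v : CSph n) : rep (ro a v) = rep v := by
  unfold rep
  congr 1
  apply Quotient.sound
  exact (orb n).symm ⟨a, rfl⟩

/-- the label -/
noncomputable def lab {n : ℕ} (v : CSph n) : ZMod 3 := (rep_rel v).choose

theorem lab_spec {n : ℕ} (v : CSph n) : v = ro (lab v) (rep v) := (rep_rel v).choose_spec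

theorem lab_ro {n : ℕ} (a : ZMod 3) (v : CSph n) : lab (ro a v) = lab v + a := by
  have h1 : ro a v = ro (lab (ro a v)) (rep v) := by
    have h := lab_spec (ro a v)
    rwa [rep_ro] at h
  have h2 : ro a v = ro (a + lab v) (rep v) := by
    rw [ro_add]
    exact congrArg (ro a) (lab_spec v)
  have h3 := ro_inj (h1.symm.trans h2)
  rw [h3]
  ring

/-- the action of `(ZMod 3)^ℕ` -/
noncomputable def act {N : ℕ → ℕ} (e : ℕ → ZMod 3) (x : XX N) : XX N := fun k => ro (e k) (x k)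

theorem act_add {N : ℕ → ℕ} (e f : ℕ → ZMod 3) (x : XX N) :
    act (e + f) x = act e (act f x) := by
  funext k
  exact ro_add _ _ _

theorem act_zero {N : ℕ → ℕ} (x : XX N) : act (0 : ℕ → ZMod 3) x = x := by
  funext k
  exact ro_zero _

theorem tt_eq {N : ℕ → ℕ} (j : ℕ) (x : XX N) : tt j x = act (Pi.single j 1) x := by
  funext k
  unfold tt act
  by_cases h : k = j
  · subst h
    rw [Function.update_self, Pi.single_eq_same, ro_one]
  · rw [Function.update_of_ne h, Pi.single_eq_of_ne h, ro_zero]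

/-- the exponents restricted to `J` -/
noncomputable def LJ {N : ℕ → ℕ} (J : Finset ℕ) (x : XX N) : ℕ → ZMod 3 :=
  fun k => if k ∈ J then lab (x k) else 0

theorem LJ_act {N : ℕ → ℕ} (J : Finset ℕ) (x : XX N) (e : ℕ → ZMod 3)
    (he : ∀ k, k ∉ J → e k = 0) : LJ J (act e x) = LJ J x + e := by
  funext k
  unfold LJ act
  rw [Pi.add_apply]
  by_cases h : k ∈ J
  · rw [if_pos h, if_pos h, lab_ro]
  · rw [if_neg h, if_neg h, he k h, add_zero]

theorem act_mem {N : ℕ → ℕ} (Z : Set (XX N)) (hZ : ∀ j, ∀ x ∈ Z, tt j x ∈ Z) (J : Finset ℕ) :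
    ∀ (e : ℕ → ZMod 3), (∀ k, k ∉ J → e k = 0) → ∀ x ∈ Z, act e x ∈ Z := by
  induction J using Finset.induction_on with
  | empty =>
    intro e he x hx
    have : e = 0 := by funext k; exact he k (Finset.notMem_empty k)
    rw [this, act_zero]
    exact hx
  | insert a J ha ih =>
    intro e he x hx
    have h1 : e = Pi.single a (e a) + (fun k => if k = a then 0 else e k) := by
      funext k
      rw [Pi.add_apply]
      by_cases h : k = a
      · subst h; rw [Pi.single_eq_same, if_pos rfl, add_zero]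
      · rw [Pi.single_eq_of_ne h, if_neg h, zero_add]
    rw [h1, act_add]
    have h2 : act (fun k => if k = a then 0 else e k) x ∈ Z := by
      apply ih _ _ x hx
      intro k hk
      by_cases h : k = a
      · rw [if_pos h]
      · rw [if_neg h]
        apply he
        simp [h, hk]
    generalize act (fun k => if k = a then 0 else e k) x = y at h2
    have h3 : ∀ m : ℕ, act (Pi.single a (m : ZMod 3)) y ∈ Z := by
      intro m
      induction m with
      | zero =>
        rw [Nat.cast_zero, Pi.single_zero, act_zero]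
        exact h2
      | succ m ihm =>
        have h4 : (Pi.single a ((m + 1 : ℕ) : ZMod 3) : ℕ → ZMod 3) =
            Pi.single a 1 + Pi.single a (m : ZMod 3) := by
          rw [← Pi.single_add]
          congr 1
          push_cast
          ring
        rw [h4, act_add, ← tt_eq]
        exact hZ _ _ ihm
    have h5 := h3 (e a).val
    rwa [ZMod.natCast_zmod_val] at h5

/-! ### small entourages -/

/-- the basic entourages -/
def Us {N : ℕ → ℕ} (K : Finset ℕ) (δ : ℝ) : Set (XX N × XX N) :=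
  {p | ∀ k ∈ K, dist (p.1 k) (p.2 k) < δ}

theorem Us_mem {N : ℕ → ℕ} (K : Finset ℕ) {δ : ℝ} (hδ : 0 < δ) :
    (Us K δ : Set (XX N × XX N)) ∈ 𝓤 (XX N) := by
  have h1 : (Us K δ : Set (XX N × XX N)) = ⋂ k ∈ K, {p | dist (p.1 k) (p.2 k) < δ} := by
    ext p
    simp [Us]
  rw [h1, Filter.biInter_finset_mem]
  intro k _
  have h2 : {p : CSph (N k) × CSph (N k) | dist p.1 p.2 < δ} ∈ 𝓤 (CSph (N k)) :=
    Metric.dist_mem_uniformity hδ
  have h3 : UniformContinuous (fun x : XX N => x k) := Pi.uniformContinuous_proj _ k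
  exact h3 h2

theorem exists_Us {N : ℕ → ℕ} (U : Set (XX N × XX N)) (hU : U ∈ 𝓤 (XX N)) :
    ∃ (K : Finset ℕ) (δ : ℝ), 0 < δ ∧ (Us K δ : Set (XX N × XX N)) ⊆ U := by
  rw [Pi.uniformity, Filter.mem_iInf] at hU
  obtain ⟨I, hI, V, hV, rfl⟩ := hU
  have h1 : ∀ i : I, ∃ δ : ℝ, 0 < δ ∧ {p : XX N × XX N | dist (p.1 i) (p.2 i) < δ} ⊆ V i := by
    intro i
    obtain ⟨W, hW, hWV⟩ := Filter.mem_comap.mp (hV i)
    obtain ⟨δ, hδ, h⟩ := Metric.mem_uniformity_dist.mp hW
    refine ⟨δ, hδ, fun p hp => hWV ?_⟩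
    exact h hp
  choose d hd hd2 using h1
  have hfin := hI.fintype
  obtain ⟨δ, hδ, h2⟩ : ∃ δ : ℝ, 0 < δ ∧ ∀ i : I, δ ≤ d i := by
    by_cases hne : Nonempty I
    · refine ⟨Finset.univ.inf' Finset.univ_nonempty d, ?_, ?_⟩
      · exact (Finset.lt_inf'_iff _).mpr (fun i _ => hd i)
      · intro i
        exact Finset.inf'_le _ (Finset.mem_univ i)
    · exact ⟨1, one_pos, fun i => absurd ⟨i⟩ hne⟩
  refine ⟨hI.toFinset, δ, hδ, ?_⟩
  intro p hp
  rw [Set.mem_iInter]
  intro i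
  apply hd2 i
  exact lt_of_lt_of_le (hp i.1 (hI.mem_toFinset.mpr i.2)) (h2 i)

theorem Us_act {N : ℕ → ℕ} (K : Finset ℕ) (δ : ℝ) (e : ℕ → ZMod 3) {x y : XX N}
    (h : (x, y) ∈ (Us K δ : Set (XX N × XX N))) : (act e x, act e y) ∈ (Us K δ : Set _) := by
  intro k hk
  change dist (ro (e k) (x k)) (ro (e k) (y k)) < δ
  rw [dist_ro]
  exact h k hk

end Br

open Br

theorem bridge : BridgeStmt := by
  intro hTT N hN hN0 T
  obtain ⟨U1, hU1, hD⟩ := T.D_kf (1 / 1000) (by norm_num)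
  obtain ⟨U2, hU2, hK⟩ := T.kf_kf (1 / 10) (by norm_num)
  obtain ⟨K, δ', hδ', hUs⟩ := exists_Us (U1 ∩ U2) (Filter.inter_mem hU1 hU2)
  set δ := δ' / 3 with hδdef
  have hδ : 0 < δ := by positivity
  set V : Set (XX N × XX N) := Us K δ with hVdef
  have hV : V ∈ 𝓤 (XX N) := Us_mem K hδ
  obtain ⟨J, ι, hι, ty, g, η, h0J, hty, hcard, hg, heq, hη, hnear⟩ := T.approx V hV
  -- the near points
  set S : Set (XX N) := {x | ∃ z ∈ T.Z, (x, z) ∈ V} with hS
  have hSact : ∀ e : ℕ → ZMod 3, (∀ k, k ∉ J → e k = 0) → ∀ x ∈ S, act e x ∈ S := by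
    rintro e he x ⟨z, hz, hxz⟩
    exact ⟨act e z, act_mem T.Z T.Z_inv J e he z hz, Us_act K δ e hxz⟩
  let r0 : XX N → XX N := fun y => open Classical in
    if h : ∃ z ∈ T.Z, (y, z) ∈ V then h.choose else y
  have hr0 : ∀ y ∈ S, r0 y ∈ T.Z ∧ (y, r0 y) ∈ V := by
    intro y hy
    have : r0 y = Exists.choose hy := dif_pos hy
    rw [this]
    exact hy.choose_spec
  let bs : XX N → XX N := fun x => act (-(LJ J x)) x
  have hLJ : ∀ x : XX N, ∀ k, k ∉ J → LJ J x k = 0 := by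
    intro x k hk
    exact if_neg hk
  have hbs : ∀ e : ℕ → ZMod 3, (∀ k, k ∉ J → e k = 0) → ∀ x, bs (act e x) = bs x := by
    intro e he x
    change act (-(LJ J (act e x))) (act e x) = act (-(LJ J x)) x
    rw [LJ_act J x e he, ← act_add]
    congr 1
    ring
  let r : XX N → XX N := fun x => act (LJ J x) (r0 (bs x))
  have hbsS : ∀ x ∈ S, bs x ∈ S := by
    intro x hx
    apply hSact _ _ x hx
    intro k hk
    rw [Pi.neg_apply, hLJ x k hk, neg_zero]
  have hrZ : ∀ x ∈ S, r x ∈ T.Z := by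
    intro x hx
    exact act_mem T.Z T.Z_inv J _ (hLJ x) _ (hr0 _ (hbsS x hx)).1
  have hrV : ∀ x ∈ S, (x, r x) ∈ V := by
    intro x hx
    have h1 := Us_act K δ (LJ J x) (hr0 _ (hbsS x hx)).2
    have h2 : act (LJ J x) (bs x) = x := by
      change act (LJ J x) (act (-(LJ J x)) x) = x
      rw [← act_add, add_neg_cancel, act_zero]
    rw [h2] at h1
    exact h1
  have hract : ∀ e : ℕ → ZMod 3, (∀ k, k ∉ J → e k = 0) → ∀ x, r (act e x) = act e (r x) := by
    intro e he x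
    change act (LJ J (act e x)) (r0 (bs (act e x))) = act e (act (LJ J x) (r0 (bs x)))
    rw [hbs e he, LJ_act J x e he, add_comm, act_add]
  have hsing : ∀ j ∈ J, ∀ k, k ∉ J → (Pi.single j 1 : ℕ → ZMod 3) k = 0 := by
    intro j hj k hk
    apply Pi.single_eq_of_ne
    rintro rfl
    exact hk hj
  have hrt : ∀ j ∈ J, ∀ x, r (tt j x) = tt j (r x) := by
    intro j hj x
    rw [tt_eq, tt_eq]
    exact hract _ (hsing j hj) x
  have hSt : ∀ j ∈ J, ∀ x, tt j x ∈ S ↔ x ∈ S := by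
    intro j hj x
    constructor
    · intro h
      have h1 := hSact (-(Pi.single j 1)) (by
        intro k hk
        rw [Pi.neg_apply, hsing j hj k hk, neg_zero]) _ h
      rw [tt_eq, ← act_add, neg_add_cancel, act_zero] at h1
      exact h1
    · intro h
      rw [tt_eq]
      exact hSact _ (hsing j hj) x h
  -- labels
  let l0 : XX N → ZMod 3 := fun x => lab (x 0)
  have hl0 : ∀ j, ∀ x, l0 (tt j x) = l0 x + if j = 0 then 1 else 0 := by
    intro j x
    rw [tt_eq]
    change lab (ro ((Pi.single j 1 : ℕ → ZMod 3) 0) (x 0)) = lab (x 0) + _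
    rw [lab_ro]
    congr 1
    by_cases h : j = 0
    · subst h
      rw [Pi.single_eq_same, if_pos rfl]
    · rw [if_neg h, Pi.single_eq_of_ne (Ne.symm h)]
  have hla : ∀ j, ∀ x y, la l0 (tt j x) (tt j y) = la l0 x y := by
    intro j x y
    unfold la
    rw [hl0, hl0]
    congr 1
    ring
  -- cube roots
  have hroot : ∀ z : ℂ, ∃ w : ℂ, w ^ 3 = z := fun z =>
    IsAlgClosed.exists_pow_nat_eq z (by norm_num)
  choose r3 hr3 using hroot
  have hr3n : ∀ z : ℂ, ‖z‖ = 1 → ‖r3 z‖ = 1 := by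
    intro z hz
    have h1 : ‖r3 z‖ ^ 3 = 1 := by rw [← norm_pow, hr3, hz]
    have h2 := norm_nonneg (r3 z)
    exact (pow_eq_one_iff_of_nonneg h2 (by norm_num)).mp h1
  let c : XX N → ℂ := fun x => r3 (ch (-(l0 x)) * T.D (r x))
  have hcn : ∀ x ∈ S, ‖c x‖ = 1 := by
    intro x hx
    apply hr3n
    rw [norm_mul, norm_ch, T.norm_D _ (hrZ x hx), one_mul]
  have hc3 : ∀ x, c x ^ 3 = ch (-(l0 x)) * T.D (r x) := fun x => hr3 _
  have hct : ∀ j ∈ J, ∀ x ∈ S, c (tt j x) = c x := by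
    intro j hj x hx
    change r3 (ch (-(l0 (tt j x))) * T.D (r (tt j x))) = r3 (ch (-(l0 x)) * T.D (r x))
    congr 1
    rw [hrt j hj, hl0]
    by_cases h : j = 0
    · subst h
      rw [if_pos rfl, T.D_zero _ (hrZ x hx), ← ch_one, ← mul_assoc, ← ch_add]
      congr 2
      ring
    · rw [if_neg h, T.D_pos j h _ (hrZ x hx), add_zero]
  obtain ⟨ze, hze⟩ : ∃ w : ℂ, w ^ 3 = om := IsAlgClosed.exists_pow_nat_eq om (by norm_num)
  have hzn : ‖ze‖ = 1 := by
    have h1 : ‖ze‖ ^ 3 = 1 := by rw [← norm_pow, hze, norm_om]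
    exact (pow_eq_one_iff_of_nonneg (norm_nonneg ze) (by norm_num)).mp h1
  have hz0 : ze ≠ 0 := by
    intro h
    rw [h, norm_zero] at hzn
    exact zero_ne_one hzn
  let u : XX N → XX N → ℂ := fun x y =>
    c y * (c x)⁻¹ * (T.kf (r x) (r y))⁻¹ * ze ^ (la l0 x y)
  have hut : ∀ j ∈ J, ∀ x ∈ S, ∀ y ∈ S, u (tt j x) (tt j y) = u x y := by
    intro j hj x hx y hy
    change c (tt j y) * (c (tt j x))⁻¹ * (T.kf (r (tt j x)) (r (tt j y)))⁻¹ *
      ze ^ (la l0 (tt j x) (tt j y)) = _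
    rw [hct j hj x hx, hct j hj y hy, hrt j hj, hrt j hj, T.kf_inv j _ (hrZ x hx) _ (hrZ y hy),
      hla]
  let bt : XX N → XX N → ZMod 3 := fun x y => open Classical in
    if x ∈ S ∧ y ∈ S then rnd (u x y) else 0
  have hbt : ∀ j ∈ J, ∀ x y, bt (tt j x) (tt j y) = bt x y := by
    intro j hj x y
    by_cases h : x ∈ S ∧ y ∈ S
    · have h1 : tt j x ∈ S ∧ tt j y ∈ S := ⟨(hSt j hj x).mpr h.1, (hSt j hj y).mpr h.2⟩
      have e1 : bt x y = rnd (u x y) := if_pos h
      have e2 : bt (tt j x) (tt j y) = rnd (u (tt j x) (tt j y)) := if_pos h1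
      rw [e1, e2, hut j hj x h.1 y h.2]
    · have h1 : ¬ (tt j x ∈ S ∧ tt j y ∈ S) := by
        rintro ⟨h1, h2⟩
        exact h ⟨(hSt j hj x).mp h1, (hSt j hj y).mp h2⟩
      have e1 : bt x y = 0 := if_neg h
      have e2 : bt (tt j x) (tt j y) = 0 := if_neg h1
      rw [e1, e2]
  refine hTT N J ι ty hN hN0 h0J hty hcard g hg heq l0 (fun j _ x => hl0 j x) V η hV hη bt hbt ?_
  intro x y z hxy hyz hxz hgs
  have hxS : x ∈ S := hnear x (fun i => (hgs i).1)
  have hyS : y ∈ S := hnear y (fun i => (hgs i).2.1)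
  have hzS : z ∈ S := hnear z (fun i => (hgs i).2.2)
  have hclose : ∀ x ∈ S, ∀ y ∈ S, (x, y) ∈ V → (r x, r y) ∈ U1 ∩ U2 := by
    intro x hx y hy hxy
    apply hUs
    intro k hk
    have h1 := hrV x hx k hk
    have h2 := hrV y hy k hk
    have h3 := hxy k hk
    simp only at h1 h2 h3 ⊢
    calc dist (r x k) (r y k) ≤ dist (r x k) (x k) + dist (x k) (y k) + dist (y k) (r y k) :=
          dist_triangle4 _ _ _ _
      _ < δ + δ + δ := by
          rw [dist_comm (r x k) (x k)]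
          linarith
      _ = δ' := by rw [hδdef]; ring
  have hu3 : ∀ x ∈ S, ∀ y ∈ S, (x, y) ∈ V → ‖u x y ^ 3 - 1‖ < 1 / 1000 := by
    intro x hx y hy hxy
    have h1 := hD _ (hrZ x hx) _ (hrZ y hy) (hclose x hx y hy hxy).1
    have hDx : T.D (r x) ≠ 0 := by
      intro h
      have := T.norm_D _ (hrZ x hx)
      rw [h, norm_zero] at this
      exact zero_ne_one this
    have hk0 : T.kf (r x) (r y) ≠ 0 := by
      intro h
      have := T.norm_kf _ (hrZ x hx) _ (hrZ y hy)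
      rw [h, norm_zero] at this
      exact zero_ne_one this
    have h2 : u x y ^ 3 = T.D (r y) * (T.D (r x) * T.kf (r x) (r y) ^ 3)⁻¹ := by
      change (c y * (c x)⁻¹ * (T.kf (r x) (r y))⁻¹ * ze ^ (la l0 x y)) ^ 3 = _
      rw [mul_pow, mul_pow, mul_pow, inv_pow, inv_pow, hc3, hc3, ← zpow_natCast (ze ^ _) 3,
        ← zpow_mul, mul_comm (la l0 x y), zpow_mul, zpow_natCast, hze, ← ch_intCast]
      have h3 : ((la l0 x y : ℤ) : ZMod 3) = l0 y - l0 x := ZMod.coe_valMinAbs _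
      rw [h3]
      have h4 : ch (l0 y - l0 x) = ch (l0 y) * (ch (l0 x))⁻¹ := by
        rw [sub_eq_add_neg, ch_add, ch_neg]
      rw [h4, ch_neg, ch_neg]
      have h5 := ch_ne (l0 x)
      have h6 := ch_ne (l0 y)
      field_simp
    have h3 : u x y ^ 3 - 1 = (T.D (r y) - T.D (r x) * T.kf (r x) (r y) ^ 3) *
        (T.D (r x) * T.kf (r x) (r y) ^ 3)⁻¹ := by
      rw [h2]
      have : T.D (r x) * T.kf (r x) (r y) ^ 3 ≠ 0 := mul_ne_zero hDx (pow_ne_zero _ hk0)
      field_simp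
    rw [h3, norm_mul, norm_inv, norm_mul, norm_pow, T.norm_D _ (hrZ x hx),
      T.norm_kf _ (hrZ x hx) _ (hrZ y hy)]
    simpa using h1
  have hb : ∀ x ∈ S, ∀ y ∈ S, (x, y) ∈ V → ‖u x y - ch (bt x y)‖ < 1 / 10 := by
    intro x hx y hy hxy
    have h1 : bt x y = rnd (u x y) := if_pos ⟨hx, hy⟩
    rw [h1]
    exact rnd_spec _ (hu3 x hx y hy hxy)
  have hun : ∀ x ∈ S, ∀ y ∈ S, ‖u x y‖ = 1 := by
    intro x hx y hy
    change ‖c y * (c x)⁻¹ * (T.kf (r x) (r y))⁻¹ * ze ^ (la l0 x y)‖ = 1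
    rw [norm_mul, norm_mul, norm_mul, norm_inv, norm_inv, norm_zpow, hzn, hcn x hx, hcn y hy,
      T.norm_kf _ (hrZ x hx) _ (hrZ y hy)]
    simp
  -- the relation
  have he3 : la l0 x y + la l0 y z = la l0 x z + 3 * e3 l0 x y z := by
    have h1 : ((la l0 x y + la l0 y z - la l0 x z : ℤ) : ZMod 3) = 0 := by
      push_cast
      unfold la
      rw [ZMod.coe_valMinAbs, ZMod.coe_valMinAbs, ZMod.coe_valMinAbs]
      ring
    have h2 := (ZMod.intCast_zmod_eq_zero_iff_dvd _ 3).mp h1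
    unfold e3
    have h3 := Int.mul_ediv_cancel' h2
    push_cast at h3
    linarith
  have hmain : ‖u x y * u y z - u x z * om ^ (e3 l0 x y z)‖ < 1 / 10 := by
    have h1 := hK _ (hrZ x hxS) _ (hrZ y hyS) _ (hrZ z hzS) (hclose x hxS y hyS hxy).2
      (hclose y hyS z hzS hyz).2 (hclose x hxS z hzS hxz).2
    have nz : ∀ w : ℂ, ‖w‖ = 1 → w ≠ 0 := by
      intro w hw h
      rw [h, norm_zero] at hw
      exact zero_ne_one hw
    have k1n := T.norm_kf _ (hrZ x hxS) _ (hrZ y hyS)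
    have k2n := T.norm_kf _ (hrZ y hyS) _ (hrZ z hzS)
    have k3n := T.norm_kf _ (hrZ x hxS) _ (hrZ z hzS)
    have k1 := nz _ k1n
    have k2 := nz _ k2n
    have k3 := nz _ k3n
    have cx := nz _ (hcn x hxS)
    have cy := nz _ (hcn y hyS)
    have cz := nz _ (hcn z hzS)
    have h2 : ze ^ (la l0 x y) * ze ^ (la l0 y z) = ze ^ (la l0 x z) * om ^ (e3 l0 x y z) := by
      have h0 : ze ^ (3 : ℤ) = om := by exact_mod_cast hze
      rw [← zpow_add₀ hz0, he3, zpow_add₀ hz0, zpow_mul, h0]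
    have h3 : u x y * u y z - u x z * om ^ (e3 l0 x y z) =
        c z * (c x)⁻¹ * (ze ^ (la l0 x z) * om ^ (e3 l0 x y z)) *
        ((T.kf (r x) (r z) - T.kf (r x) (r y) * T.kf (r y) (r z)) *
        ((T.kf (r x) (r z))⁻¹ * (T.kf (r x) (r y))⁻¹ * (T.kf (r y) (r z))⁻¹)) := by
      have h4 : u x y * u y z = c z * (c x)⁻¹ * ((T.kf (r x) (r y))⁻¹ * (T.kf (r y) (r z))⁻¹) *
          (ze ^ (la l0 x y) * ze ^ (la l0 y z)) := by
        change (c y * (c x)⁻¹ * (T.kf (r x) (r y))⁻¹ * ze ^ (la l0 x y)) *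
          (c z * (c y)⁻¹ * (T.kf (r y) (r z))⁻¹ * ze ^ (la l0 y z)) = _
        field_simp
      rw [h4, h2]
      change _ - (c z * (c x)⁻¹ * (T.kf (r x) (r z))⁻¹ * ze ^ (la l0 x z)) * _ = _
      field_simp
    rw [h3]
    simp only [norm_mul, norm_inv, norm_zpow, hcn z hzS, hcn x hxS, hzn, norm_om, k1n, k2n, k3n,
      one_zpow, inv_one, mul_one, one_mul]
    rw [norm_sub_rev]
    exact h1
  have hb1 := hb x hxS y hyS hxy
  have hb2 := hb y hyS z hzS hyz
  have hb3 := hb x hxS z hzS hxz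
  have hfin : ‖ch (bt x y + bt y z) - ch (bt x z + (e3 l0 x y z : ZMod 3))‖ < 1 := by
    rw [ch_add, ch_add, ch_intCast]
    have h1 : ch (bt x y) * ch (bt y z) - ch (bt x z) * om ^ (e3 l0 x y z) =
        -((u x y - ch (bt x y)) * ch (bt y z)) - u x y * (u y z - ch (bt y z)) +
        (u x y * u y z - u x z * om ^ (e3 l0 x y z)) +
        (u x z - ch (bt x z)) * om ^ (e3 l0 x y z) := by ring
    rw [h1]
    have n1 : ‖-((u x y - ch (bt x y)) * ch (bt y z))‖ < 1 / 10 := by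
      rw [norm_neg, norm_mul, norm_ch, mul_one]
      exact hb1
    have n2 : ‖u x y * (u y z - ch (bt y z))‖ < 1 / 10 := by
      rw [norm_mul, hun x hxS y hyS, one_mul]
      exact hb2
    have n4 : ‖(u x z - ch (bt x z)) * om ^ (e3 l0 x y z)‖ < 1 / 10 := by
      rw [norm_mul, norm_zpow, norm_om, one_zpow, mul_one]
      exact hb3
    calc _ ≤ ‖-((u x y - ch (bt x y)) * ch (bt y z)) - u x y * (u y z - ch (bt y z)) +
        (u x y * u y z - u x z * om ^ (e3 l0 x y z))‖ +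
        ‖(u x z - ch (bt x z)) * om ^ (e3 l0 x y z)‖ := norm_add_le _ _
      _ ≤ (‖-((u x y - ch (bt x y)) * ch (bt y z)) - u x y * (u y z - ch (bt y z))‖ +
        ‖u x y * u y z - u x z * om ^ (e3 l0 x y z)‖) +
        ‖(u x z - ch (bt x z)) * om ^ (e3 l0 x y z)‖ := by
          gcongr
          exact norm_add_le _ _
      _ ≤ ((‖-((u x y - ch (bt x y)) * ch (bt y z))‖ + ‖u x y * (u y z - ch (bt y z))‖) +
        ‖u x y * u y z - u x z * om ^ (e3 l0 x y z)‖) +
        ‖(u x z - ch (bt x z)) * om ^ (e3 l0 x y z)‖ := by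
          gcongr
          exact norm_sub_le _ _
      _ < 1 := by linarith
  have hlast := ch_far hfin
  rw [hlast]
  ring

end Pool.OPP
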